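import Pool.Agent.Helper60.BFT.AvBasic
import Pool.Agent.Helper60.BFT.GoalsC

/-! Proof of `KTG`. -/

set_option autoImplicit false

open Finset
open Pool.Agent.Helper90.Twin (Ps XX mem_Ps Ps_mono one_sub_prod_eq_sum)
open Pool.Agent.Helper60.BFT

namespace Pool.Agent.Helper9.BFT

/-- the factor of `p` as a function of the class -/
noncomputable def gg (I : Finset ℕ) (t : ℕ) (p c : ℕ) : ℝ :=
  ∏ i ∈ I, (1 - yA (fun _ => c) p (t + i))

theorem prod_XA (I : Finset ℕ) (t Z : ℕ) (B : ℕ → ℕ) :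
    ∏ i ∈ I, XA Z B (t + i) = ∏ p ∈ Ps Z, gg I t p (B p) := by
  unfold XA XX
  rw [Finset.prod_comm]
  apply Finset.prod_congr rfl
  intro p _
  rfl

theorem card_class {p : ℕ} (hp : 0 < p) (x : ℕ) :
    ((range p).filter (fun c => p ∣ x + c)).card = 1 := by
  have : NeZero p := ⟨hp.ne'⟩
  rw [Finset.card_eq_one]
  refine ⟨(-(x : ZMod p)).val, ?_⟩
  ext c
  rw [Finset.mem_filter, mem_range, Finset.mem_singleton]
  constructor
  · rintro ⟨hc, hdvd⟩
    have h1 : ((x + c : ℕ) : ZMod p) = 0 := (ZMod.natCast_eq_zero_iff _ _).2 hdvd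
    have h2 : (c : ZMod p) = -(x : ZMod p) := by
      push_cast at h1
      linear_combination h1
    rw [← h2, ZMod.val_natCast_of_lt hc]
  · intro hc
    refine ⟨hc ▸ ZMod.val_lt _, ?_⟩
    rw [← ZMod.natCast_eq_zero_iff]
    have h2 : (c : ZMod p) = -(x : ZMod p) := by
      rw [hc, ZMod.natCast_zmod_val]
    push_cast
    rw [h2]
    ring

theorem yA_zero_one (A : ℕ → ℕ) (p x : ℕ) : yA A p x = 0 ∨ yA A p x = 1 := by
  unfold yA
  split_ifs
  · exact Or.inr rfl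
  · exact Or.inl rfl

theorem sum_yA {p : ℕ} (h5 : 5 ≤ p) (x : ℕ) :
    ∑ c ∈ range p, yA (fun _ => c) p x = 2 := by
  classical
  have h1 : ∀ c, yA (fun _ => c) p x = (if p ∣ 6 * x + c then (1 : ℝ) else 0)
      + (if p ∣ (6 * x + 2) + c then (1 : ℝ) else 0) := by
    intro c
    have hb : ¬ (p ∣ 6 * x + c ∧ p ∣ 6 * x + 2 + c) := by
      rintro ⟨h1, h2⟩
      have h3 : p ∣ (6 * x + 2 + c) - (6 * x + c) := Nat.dvd_sub h2 h1
      have h4 : (6 * x + 2 + c) - (6 * x + c) = 2 := by omega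
      rw [h4] at h3
      have := Nat.le_of_dvd (by norm_num) h3
      omega
    have h6 : 6 * x + c + 2 = 6 * x + 2 + c := by ring
    unfold yA bad
    simp only [h6]
    by_cases ha : p ∣ 6 * x + c <;> by_cases hb' : p ∣ 6 * x + 2 + c <;> simp [ha, hb']
    exact absurd ⟨ha, hb'⟩ hb
  simp_rw [h1]
  rw [Finset.sum_add_distrib, Finset.sum_boole, Finset.sum_boole, card_class (by omega),
    card_class (by omega)]
  norm_num

theorem separatedA {p H : ℕ} (hp : p.Prime) (hH : 3 * H + 1 < p) (h5 : 5 ≤ p) (c t i j : ℕ)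
    (hi : i ≤ H) (hj : j ≤ H) (hij : i ≠ j) (h1 : yA (fun _ => c) p (t + i) = 1) :
    yA (fun _ => c) p (t + j) = 0 := by
  have hb1 : bad (fun _ => c) p (t + i) := by
    unfold yA at h1
    by_contra h
    rw [if_neg h] at h1
    norm_num at h1
  unfold yA
  rw [if_neg]
  intro hb2
  have hpZ : Prime (p : ℤ) := Nat.prime_iff_prime_int.1 hp
  have key : ∀ e : ℤ, (e = 0 ∨ e = 1 ∨ e = -1) →
      (p : ℤ) ∣ 2 * (3 * ((i : ℤ) - j) + e) → False := by
    intro e he hdvd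
    rcases hpZ.dvd_or_dvd hdvd with h | h
    · have := Int.le_of_dvd (by norm_num) h
      omega
    · have h2 : |3 * ((i : ℤ) - j) + e| < p := by
        rw [abs_lt]
        constructor <;> omega
      have h3 := Int.eq_zero_of_abs_lt_dvd h h2
      omega
  unfold bad at hb1 hb2
  simp only at hb1 hb2
  rcases hb1 with ha | ha <;> rcases hb2 with hb | hb
  · apply key 0 (Or.inl rfl)
    have h2 : (p : ℤ) ∣ ((6 * (t + i) + c : ℕ) : ℤ) - ((6 * (t + j) + c : ℕ) : ℤ) :=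
      dvd_sub (Int.natCast_dvd_natCast.2 ha) (Int.natCast_dvd_natCast.2 hb)
    push_cast at h2
    have h3 : 6 * ((t : ℤ) + i) + c - (6 * ((t : ℤ) + j) + c) = 2 * (3 * ((i : ℤ) - j) + 0) := by
      ring
    rwa [h3] at h2
  · apply key (-1) (Or.inr (Or.inr rfl))
    have h2 : (p : ℤ) ∣ ((6 * (t + i) + c : ℕ) : ℤ) - ((6 * (t + j) + c + 2 : ℕ) : ℤ) :=
      dvd_sub (Int.natCast_dvd_natCast.2 ha) (Int.natCast_dvd_natCast.2 hb)
    push_cast at h2
    have h3 : 6 * ((t : ℤ) + i) + c - (6 * ((t : ℤ) + j) + c + 2)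
        = 2 * (3 * ((i : ℤ) - j) + (-1)) := by
      ring
    rwa [h3] at h2
  · apply key 1 (Or.inr (Or.inl rfl))
    have h2 : (p : ℤ) ∣ ((6 * (t + i) + c + 2 : ℕ) : ℤ) - ((6 * (t + j) + c : ℕ) : ℤ) :=
      dvd_sub (Int.natCast_dvd_natCast.2 ha) (Int.natCast_dvd_natCast.2 hb)
    push_cast at h2
    have h3 : 6 * ((t : ℤ) + i) + c + 2 - (6 * ((t : ℤ) + j) + c)
        = 2 * (3 * ((i : ℤ) - j) + 1) := by
      ring
    rwa [h3] at h2
  · apply key 0 (Or.inl rfl)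
    have h2 : (p : ℤ) ∣ ((6 * (t + i) + c + 2 : ℕ) : ℤ) - ((6 * (t + j) + c + 2 : ℕ) : ℤ) :=
      dvd_sub (Int.natCast_dvd_natCast.2 ha) (Int.natCast_dvd_natCast.2 hb)
    push_cast at h2
    have h3 : 6 * ((t : ℤ) + i) + c + 2 - (6 * ((t : ℤ) + j) + c + 2)
        = 2 * (3 * ((i : ℤ) - j) + 0) := by
      ring
    rwa [h3] at h2

theorem avg_gg {p H : ℕ} (hp : p.Prime) (hH : 3 * H + 1 < p) (h5 : 5 ≤ p) (I : Finset ℕ)
    (hI : ∀ i ∈ I, i ≤ H) (t : ℕ) :
    (∑ c ∈ range p, gg I t p c) / (p : ℝ) = 1 - 2 * (I.card : ℝ) / (p : ℝ) := by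
  have hp0 : (p : ℝ) ≠ 0 := by exact_mod_cast hp.ne_zero
  have h1 : ∀ c, gg I t p c = 1 - ∑ i ∈ I, yA (fun _ => c) p (t + i) := by
    intro c
    have := one_sub_prod_eq_sum (I := I) (a := fun i => yA (fun _ => c) p (t + i))
      (fun i _ => yA_zero_one _ _ _)
      (fun i hi j hj hij h1 => separatedA hp hH h5 c t i j (hI i hi) (hI j hj) hij h1)
    unfold gg
    linarith
  simp_rw [h1]
  rw [Finset.sum_sub_distrib, Finset.sum_comm]
  have h2 : ∀ i ∈ I, ∑ c ∈ range p, yA (fun _ => c) p (t + i) = 2 := fun i _ => sum_yA h5 _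
  rw [Finset.sum_congr rfl h2]
  simp only [Finset.sum_const, Finset.card_range, nsmul_eq_mul, mul_one]
  field_simp

theorem kt : KTG := by
  intro r Z H hr hrZ I hI t A
  simp only [prod_XA]
  rw [Av_prod (Ps Z) (lg r Z) (lg_nodup r Z) ?_ (gg I t) A]
  · have h1 : (lg r Z).toFinset = Ps Z \ Ps r := by
      unfold lg
      rw [Finset.toList_toFinset]
    rw [h1, Finset.sdiff_sdiff_eq_self (Ps_mono hrZ), mul_comm]
    congr 1
    apply Finset.prod_congr rfl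
    intro p hp
    rw [Finset.mem_sdiff, mem_Ps, mem_Ps] at hp
    obtain ⟨⟨h5, hpZ, hpp⟩, hn⟩ := hp
    have hrp : r < p := by
      by_contra h
      exact hn ⟨h5, by omega, hpp⟩
    exact avg_gg hpp (by omega) h5 I hI t
  · intro q hq
    have := mem_lg.1 hq
    rw [mem_Ps]
    exact ⟨this.1, this.2.1, this.2.2.1⟩

end Pool.Agent.Helper9.BFT
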